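import Mathlib

/-!
# Bounded semigroups of real 2 by 2 matrices preserve a definite form up to scalars
-/

set_option autoImplicit false

open Matrix Filter Topology

namespace Pool.Agent.MPd01a95

namespace A2Unb

/-- The convex region of symmetric positive definite matrices of determinant at least one. -/
def Reg : Set (Matrix (Fin 2) (Fin 2) ℝ) :=
  {S | S 0 1 = S 1 0 ∧ 0 ≤ S 0 0 ∧ 0 ≤ S 1 1 ∧ 1 ≤ S.det}

theorem reg_pos {S : Matrix (Fin 2) (Fin 2) ℝ} (h : S ∈ Reg) : 0 < S 0 0 ∧ 0 < S 1 1 := by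
  obtain ⟨h1, h2, h3, h4⟩ := h
  rw [det_fin_two] at h4
  rw [← h1] at h4
  have h5 : 0 < S 0 0 * S 1 1 := by nlinarith [sq_nonneg (S 0 1)]
  constructor
  · rcases h2.lt_or_eq with h | h
    · exact h
    · rw [← h, zero_mul] at h5
      exact absurd h5 (lt_irrefl _)
  · rcases h3.lt_or_eq with h | h
    · exact h
    · rw [← h, mul_zero] at h5
      exact absurd h5 (lt_irrefl _)

theorem cross {a b c a' b' c' d : ℝ}
    (h : a * c - b ^ 2 = d) (h' : a' * c' - b' ^ 2 = d) :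
    a * a' * (a * c' + a' * c - 2 * (b * b') - 2 * d) =
      d * (a - a') ^ 2 + (a * b' - a' * b) ^ 2 := by
  have e1 : a * c = d + b ^ 2 := by linarith
  have e2 : a' * c' = d + b' ^ 2 := by linarith
  calc a * a' * (a * c' + a' * c - 2 * (b * b') - 2 * d)
      = a ^ 2 * (a' * c') + a' ^ 2 * (a * c) - 2 * (a * b * (a' * b')) - 2 * d * (a * a') := by ring
    _ = _ := by rw [e1, e2]; ring

theorem convex_reg : Convex ℝ Reg := by
  intro S hS S' hS' s t hs ht hst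
  obtain ⟨p1, p2⟩ := reg_pos hS
  obtain ⟨p3, p4⟩ := reg_pos hS'
  obtain ⟨h1, h2, h3, h4⟩ := hS
  obtain ⟨h1', h2', h3', h4'⟩ := hS'
  rw [det_fin_two] at h4 h4'
  refine ⟨?_, ?_, ?_, ?_⟩
  · simp only [Matrix.add_apply, Matrix.smul_apply, smul_eq_mul, h1, h1']
  · simp only [Matrix.add_apply, Matrix.smul_apply, smul_eq_mul]
    positivity
  · simp only [Matrix.add_apply, Matrix.smul_apply, smul_eq_mul]
    positivity
  · rw [det_fin_two]
    simp only [Matrix.add_apply, Matrix.smul_apply, smul_eq_mul]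
    rw [← h1] at h4 ⊢
    rw [← h1'] at h4' ⊢
    have key : 2 ≤ S 0 0 * S' 1 1 + S' 0 0 * S 1 1 - 2 * (S 0 1 * S' 0 1) := by
      by_contra hlt
      push Not at hlt
      have e : S 0 0 * S' 0 0 * (S 0 0 * S' 1 1 + S' 0 0 * S 1 1 - 2 * (S 0 1 * S' 0 1) - 2) =
          (S 0 0) ^ 2 * (S' 0 0 * S' 1 1 - S' 0 1 ^ 2 - 1) +
          (S' 0 0) ^ 2 * (S 0 0 * S 1 1 - S 0 1 ^ 2 - 1) +
          (S 0 0 - S' 0 0) ^ 2 + (S 0 0 * S' 0 1 - S' 0 0 * S 0 1) ^ 2 := by ring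
      have e1 : S 0 0 * S' 0 0 * (S 0 0 * S' 1 1 + S' 0 0 * S 1 1 - 2 * (S 0 1 * S' 0 1) - 2) < 0 :=
        mul_neg_of_pos_of_neg (by positivity) (by linarith)
      have e2 : 0 ≤ (S 0 0) ^ 2 * (S' 0 0 * S' 1 1 - S' 0 1 ^ 2 - 1) :=
        mul_nonneg (by positivity) (by nlinarith)
      have e3 : 0 ≤ (S' 0 0) ^ 2 * (S 0 0 * S 1 1 - S 0 1 ^ 2 - 1) :=
        mul_nonneg (by positivity) (by nlinarith)
      nlinarith [sq_nonneg (S 0 0 - S' 0 0), sq_nonneg (S 0 0 * S' 0 1 - S' 0 0 * S 0 1)]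
    have e4 : (s * S 0 0 + t * S' 0 0) * (s * S 1 1 + t * S' 1 1) -
        (s * S 0 1 + t * S' 0 1) * (s * S 0 1 + t * S' 0 1) =
        s ^ 2 * (S 0 0 * S 1 1 - S 0 1 * S 0 1) + t ^ 2 * (S' 0 0 * S' 1 1 - S' 0 1 * S' 0 1) +
        s * t * (S 0 0 * S' 1 1 + S' 0 0 * S 1 1 - 2 * (S 0 1 * S' 0 1)) := by ring
    rw [e4]
    have e5 : 1 = s ^ 2 + t ^ 2 + s * t * 2 := by
      have : t = 1 - s := by linarith
      rw [this]; ring
    nlinarith [mul_nonneg hs ht, sq_nonneg s, sq_nonneg t,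
      mul_nonneg (mul_nonneg hs ht) (sub_nonneg.mpr key),
      mul_nonneg (sq_nonneg s) (sub_nonneg.mpr h4), mul_nonneg (sq_nonneg t) (sub_nonneg.mpr h4')]

theorem continuous_det2 : Continuous (fun S : Matrix (Fin 2) (Fin 2) ℝ => S.det) :=
  Continuous.matrix_det continuous_id

theorem closed_reg : IsClosed Reg := by
  have c : ∀ i j : Fin 2, Continuous (fun S : Matrix (Fin 2) (Fin 2) ℝ => S i j) :=
    fun i j => continuous_id.matrix_elem i j
  have h1 := isClosed_eq (c 0 1) (c 1 0)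
  have h2 := isClosed_le continuous_const (c 0 0) (f := fun _ => (0 : ℝ))
  have h3 := isClosed_le continuous_const (c 1 1) (f := fun _ => (0 : ℝ))
  have h4 := isClosed_le continuous_const continuous_det2 (f := fun _ => (1 : ℝ))
  exact h1.inter (h2.inter (h3.inter h4))

/-- A subsemigroup of the 2 by 2 matrices whose elements are bounded by their determinants
preserves a definite quadratic form up to scalars. -/
theorem exists_form (T : Set (Matrix (Fin 2) (Fin 2) ℝ)) (hmul : ∀ X ∈ T, ∀ Y ∈ T, X * Y ∈ T)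
    (C : ℝ) (hC : ∀ X ∈ T, ∀ i j, X i j ^ 2 ≤ C * |X.det|) :
    ∃ Q : Matrix (Fin 2) (Fin 2) ℝ, Q 0 1 = Q 1 0 ∧ 0 < Q 0 0 ∧ 0 < Q.det ∧
      ∀ X ∈ T, Xᵀ * Q * X = |X.det| • Q := by
  classical
  obtain ⟨O, hO⟩ : ∃ O : Set (Matrix (Fin 2) (Fin 2) ℝ),
    O = {S | S = 1 ∨ ∃ X ∈ T, X.det ≠ 0 ∧ S = |X.det|⁻¹ • (Xᵀ * X)} := ⟨_, rfl⟩
  have hO1 : (1 : Matrix (Fin 2) (Fin 2) ℝ) ∈ O := by rw [hO]; exact Or.inl rfl
  have hOR : O ⊆ Reg := by
    rw [hO]
    rintro S (rfl | ⟨X, hX, hX0, rfl⟩)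
    · refine ⟨?_, ?_, ?_, ?_⟩ <;> simp
    · have h0 : 0 < |X.det|⁻¹ := inv_pos.mpr (abs_pos.mpr hX0)
      refine ⟨?_, ?_, ?_, ?_⟩
      · simp only [Matrix.smul_apply, smul_eq_mul, Matrix.mul_apply, Fin.sum_univ_two,
          Matrix.transpose_apply]
        ring
      · simp only [Matrix.smul_apply, smul_eq_mul, Matrix.mul_apply, Fin.sum_univ_two,
          Matrix.transpose_apply]
        have : 0 ≤ X 0 0 * X 0 0 + X 1 0 * X 1 0 := by nlinarith [sq_nonneg (X 0 0), sq_nonneg (X 1 0)]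
        positivity
      · simp only [Matrix.smul_apply, smul_eq_mul, Matrix.mul_apply, Fin.sum_univ_two,
          Matrix.transpose_apply]
        have : 0 ≤ X 0 1 * X 0 1 + X 1 1 * X 1 1 := by nlinarith [sq_nonneg (X 0 1), sq_nonneg (X 1 1)]
        positivity
      · rw [Matrix.det_smul, Matrix.det_mul, Matrix.det_transpose, Fintype.card_fin]
        have : X.det * X.det = |X.det| ^ 2 := by rw [sq_abs]; ring
        rw [this, inv_pow, inv_mul_cancel₀ (pow_ne_zero 2 (abs_pos.mpr hX0).ne')]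
  obtain ⟨B, hB⟩ : ∃ B : Set (Matrix (Fin 2) (Fin 2) ℝ),
    B = {S | ∀ i j, S i j ∈ Set.Icc (-(2 * |C| + 1)) (2 * |C| + 1)} := ⟨_, rfl⟩
  have hBc : IsCompact B := by
    have h1 : B = Set.pi Set.univ (fun _ : Fin 2 => Set.pi Set.univ
        (fun _ : Fin 2 => Set.Icc (-(2 * |C| + 1)) (2 * |C| + 1))) := by
      rw [hB]
      ext S
      constructor
      · intro h i _ j _
        exact h i j
      · intro h i j
        exact h i (Set.mem_univ _) j (Set.mem_univ _)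
    rw [h1]
    exact isCompact_univ_pi fun _ => isCompact_univ_pi fun _ => isCompact_Icc
  have hBv : Convex ℝ B := by
    rw [hB]
    intro S hS S' hS' s t hs ht hst i j
    have h1 := convex_Icc (-(2 * |C| + 1)) (2 * |C| + 1) (hS i j) (hS' i j) hs ht hst
    simpa using h1
  have hOB : O ⊆ B := by
    rw [hO, hB]
    rintro S (rfl | ⟨X, hX, hX0, rfl⟩) i j
    · have := abs_nonneg C
      rw [Set.mem_Icc, Matrix.one_apply]
      split_ifs <;> constructor <;> linarith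
    · have h0 : 0 < |X.det| := abs_pos.mpr hX0
      rw [Set.mem_Icc, ← abs_le]
      simp only [Matrix.smul_apply, smul_eq_mul, Matrix.mul_apply, Fin.sum_univ_two,
        Matrix.transpose_apply]
      rw [abs_mul, abs_inv, abs_abs, inv_mul_le_iff₀ h0]
      have h1 := hC X hX 0 i
      have h2 := hC X hX 1 i
      have h3 := hC X hX 0 j
      have h4 := hC X hX 1 j
      have h5 : C * |X.det| ≤ |C| * |X.det| := mul_le_mul_of_nonneg_right (le_abs_self C) h0.le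
      have h6 : |X 0 i * X 0 j + X 1 i * X 1 j| ≤ 2 * (|C| * |X.det|) := by
        rw [abs_le]
        constructor <;> nlinarith [sq_nonneg (X 0 i - X 0 j), sq_nonneg (X 0 i + X 0 j),
          sq_nonneg (X 1 i - X 1 j), sq_nonneg (X 1 i + X 1 j)]
      linarith
  obtain ⟨K, hK⟩ : ∃ K, K = closure (convexHull ℝ O) := ⟨_, rfl⟩
  have hKR : K ⊆ Reg := by
    rw [hK]
    exact closure_minimal (convexHull_min hOR convex_reg) closed_reg
  have hKB : K ⊆ B := by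
    rw [hK]
    exact closure_minimal (convexHull_min hOB hBv) hBc.isClosed
  have hKc : IsCompact K := hBc.of_isClosed_subset (by rw [hK]; exact isClosed_closure) hKB
  have hKv : Convex ℝ K := by
    rw [hK]
    exact (convex_convexHull ℝ O).closure
  have hK1 : (1 : Matrix (Fin 2) (Fin 2) ℝ) ∈ K := by
    rw [hK]
    exact subset_closure (subset_convexHull ℝ O hO1)
  obtain ⟨Q, hQK, hQ⟩ := hKc.exists_isMaxOn ⟨1, hK1⟩ continuous_det2.continuousOn
  have hQR := hKR hQK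
  obtain ⟨hQ0, hQ1⟩ := reg_pos hQR
  refine ⟨Q, hQR.1, hQ0, lt_of_lt_of_le one_pos hQR.2.2.2, fun X hX => ?_⟩
  by_cases hX0 : X.det = 0
  · have hX00 : X = 0 := by
      ext i j
      have := hC X hX i j
      rw [hX0, abs_zero, mul_zero] at this
      exact pow_eq_zero_iff (two_ne_zero) |>.mp (le_antisymm this (sq_nonneg _))
    rw [hX00]
    simp
  have h0 : 0 < |X.det| := abs_pos.mpr hX0
  obtain ⟨φ, hφ⟩ : ∃ φ : Matrix (Fin 2) (Fin 2) ℝ →ₗ[ℝ] Matrix (Fin 2) (Fin 2) ℝ,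
      ∀ S, φ S = |X.det|⁻¹ • (Xᵀ * S * X) :=
    ⟨{ toFun := fun S => |X.det|⁻¹ • (Xᵀ * S * X)
       map_add' := fun S S' => by rw [Matrix.mul_add, Matrix.add_mul, smul_add]
       map_smul' := fun c S => by
         rw [Matrix.mul_smul, Matrix.smul_mul, smul_comm]
         rfl }, fun _ => rfl⟩
  have hφc : Continuous φ := LinearMap.continuous_of_finiteDimensional φ
  have hφO : φ '' O ⊆ O := by
    rw [hO]
    rintro _ ⟨S, hS | ⟨Y, hY, hY0, hS⟩, rfl⟩
    · right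
      refine ⟨X, hX, hX0, ?_⟩
      rw [hφ, hS, Matrix.mul_one]
    · right
      refine ⟨Y * X, hmul Y hY X hX, by rw [Matrix.det_mul]; exact mul_ne_zero hY0 hX0, ?_⟩
      rw [hφ, hS, Matrix.mul_smul, Matrix.smul_mul, smul_smul, Matrix.det_mul, abs_mul, mul_inv,
        Matrix.transpose_mul]
      simp only [Matrix.mul_assoc]
      rw [mul_comm |X.det|⁻¹]
  have hφK : ∀ S ∈ K, φ S ∈ K := by
    intro S hS
    rw [hK] at hS ⊢
    have h1 : φ S ∈ closure (φ '' convexHull ℝ O) :=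
      image_closure_subset_closure_image hφc ⟨S, hS, rfl⟩
    rw [LinearMap.image_convexHull] at h1
    exact closure_mono (convexHull_mono hφO) h1
  have hP := hφK Q hQK
  have hPdet : (φ Q).det = Q.det := by
    rw [hφ, Matrix.det_smul, Matrix.det_mul, Matrix.det_mul, Matrix.det_transpose,
      Fintype.card_fin]
    have : X.det * Q.det * X.det = |X.det| ^ 2 * Q.det := by rw [sq_abs]; ring
    rw [this, ← mul_assoc, inv_pow, inv_mul_cancel₀ (pow_ne_zero 2 h0.ne'), one_mul]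
  have hPR := hKR hP
  obtain ⟨hP0, hP1⟩ := reg_pos hPR
  have hmid : ((1 / 2 : ℝ) • Q + (1 / 2 : ℝ) • φ Q) ∈ K :=
    hKv hQK hP (by norm_num) (by norm_num) (by norm_num)
  have hle := hQ hmid
  simp only [Set.mem_ofPred_eq] at hle
  have hQs := hQR.1
  have hPs := hPR.1
  rw [det_fin_two, det_fin_two] at hle
  rw [det_fin_two, det_fin_two] at hPdet
  simp only [Matrix.add_apply, Matrix.smul_apply, smul_eq_mul] at hle
  rw [← hQs] at hle hPdet
  rw [← hPs] at hle hPdet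
  have hd : 1 ≤ Q 0 0 * Q 1 1 - Q 0 1 * Q 0 1 := by
    have := hQR.2.2.2
    rwa [det_fin_two, ← hQs] at this
  have hc := cross (a := Q 0 0) (b := Q 0 1) (c := Q 1 1) (a' := φ Q 0 0) (b' := φ Q 0 1)
    (c' := φ Q 1 1) (d := Q 0 0 * Q 1 1 - Q 0 1 * Q 0 1) (by ring) (by linarith)
  have hneg : Q 0 0 * φ Q 1 1 + φ Q 0 0 * Q 1 1 - 2 * (Q 0 1 * φ Q 0 1) -
      2 * (Q 0 0 * Q 1 1 - Q 0 1 * Q 0 1) ≤ 0 := by nlinarith
  have hsum : (Q 0 0 * Q 1 1 - Q 0 1 * Q 0 1) * (Q 0 0 - φ Q 0 0) ^ 2 +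
      (Q 0 0 * φ Q 0 1 - φ Q 0 0 * Q 0 1) ^ 2 ≤ 0 := by
    rw [← hc]
    exact mul_nonpos_of_nonneg_of_nonpos (by positivity) hneg
  have e1 : (Q 0 0 - φ Q 0 0) ^ 2 = 0 := by
    nlinarith [sq_nonneg (Q 0 0 - φ Q 0 0), sq_nonneg (Q 0 0 * φ Q 0 1 - φ Q 0 0 * Q 0 1)]
  have e2 : Q 0 0 = φ Q 0 0 := by
    have := pow_eq_zero_iff (two_ne_zero) |>.mp e1
    linarith
  have e3 : (Q 0 0 * φ Q 0 1 - φ Q 0 0 * Q 0 1) ^ 2 = 0 := by
    nlinarith [sq_nonneg (Q 0 0 - φ Q 0 0), sq_nonneg (Q 0 0 * φ Q 0 1 - φ Q 0 0 * Q 0 1)]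
  have e4 : Q 0 1 = φ Q 0 1 := by
    have := pow_eq_zero_iff (two_ne_zero) |>.mp e3
    rw [← e2] at this
    have h5 : Q 0 0 * (φ Q 0 1 - Q 0 1) = 0 := by linarith
    rcases mul_eq_zero.mp h5 with h6 | h6
    · exact absurd h6 hQ0.ne'
    · linarith
  have e5 : Q 1 1 = φ Q 1 1 := by
    rw [← e2, ← e4] at hPdet
    have h5 : Q 0 0 * (φ Q 1 1 - Q 1 1) = 0 := by linarith
    rcases mul_eq_zero.mp h5 with h6 | h6
    · exact absurd h6 hQ0.ne'
    · linarith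
  have hfin : φ Q = Q := by
    ext i j
    fin_cases i <;> fin_cases j
    · exact e2.symm
    · exact e4.symm
    · show φ Q 1 0 = Q 1 0
      rw [← hPs, ← hQs, e4]
    · exact e5.symm
  rw [hφ] at hfin
  calc Xᵀ * Q * X = |X.det| • (|X.det|⁻¹ • (Xᵀ * Q * X)) := by
        rw [smul_smul, mul_inv_cancel₀ h0.ne', one_smul]
    _ = _ := by rw [hfin]

end A2Unb

end Pool.Agent.MPd01a95
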