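import Mathlib

/-!
# Orthogonal matrices moving one orthonormal pair to another, of determinant minus one
-/

set_option autoImplicit false

open Matrix

namespace Pool.Agent.MPd01a95

namespace A2Unb

variable {ι : Type} [Fintype ι] [DecidableEq ι]

/-- The reflection in the hyperplane orthogonal to `u`. -/
noncomputable def Hh (u : ι → ℝ) : Matrix ι ι ℝ :=
  1 - (2 / (u ⬝ᵥ u)) • vecMulVec u u

theorem Hh_mulVec (u v : ι → ℝ) : Hh u *ᵥ v = v - (2 * (u ⬝ᵥ v) / (u ⬝ᵥ u)) • u := by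
  unfold Hh
  rw [Matrix.sub_mulVec, Matrix.one_mulVec, Matrix.smul_mulVec, Matrix.vecMulVec_mulVec]
  congr 1
  ext i
  simp only [Pi.smul_apply, smul_eq_mul, MulOpposite.smul_eq_mul_unop, MulOpposite.unop_op]
  ring

theorem Hh_transpose (u : ι → ℝ) : (Hh u)ᵀ = Hh u := by
  unfold Hh
  rw [Matrix.transpose_sub, Matrix.transpose_one, Matrix.transpose_smul,
    Matrix.transpose_vecMulVec]

omit [DecidableEq ι] in
theorem dot_pos {u : ι → ℝ} (hu : u ≠ 0) : 0 < u ⬝ᵥ u := by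
  have h1 : 0 ≤ u ⬝ᵥ u := by
    unfold dotProduct
    exact Finset.sum_nonneg fun i _ => mul_self_nonneg _
  rcases h1.lt_or_eq with h | h
  · exact h
  · exact absurd (dotProduct_self_eq_zero.mp h.symm) hu

theorem Hh_sq {u : ι → ℝ} (hu : u ≠ 0) : Hh u * Hh u = 1 := by
  have hp := (dot_pos hu).ne'
  refine Matrix.ext_of_mulVec_single fun j => ?_
  rw [← Matrix.mulVec_mulVec, Hh_mulVec, Hh_mulVec, Matrix.one_mulVec]
  have h1 : u ⬝ᵥ (Pi.single j 1 - (2 * (u ⬝ᵥ Pi.single j 1) / (u ⬝ᵥ u)) • u) =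
      -(u ⬝ᵥ Pi.single j 1) := by
    rw [dotProduct_sub, dotProduct_smul, smul_eq_mul]
    field_simp
    ring
  rw [h1]
  ext i
  simp only [Pi.sub_apply, Pi.smul_apply, smul_eq_mul]
  ring

theorem Hh_orth {u : ι → ℝ} (hu : u ≠ 0) : (Hh u)ᵀ * Hh u = 1 := by
  rw [Hh_transpose, Hh_sq hu]

theorem Hh_det {u : ι → ℝ} (hu : u ≠ 0) : (Hh u).det = -1 := by
  have hp := (dot_pos hu).ne'
  have h1 : Hh u = 1 - replicateCol Unit ((2 / (u ⬝ᵥ u)) • u) * replicateRow Unit u := by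
    unfold Hh
    congr 1
    ext i j
    simp [Matrix.mul_apply, vecMulVec_apply]
    ring
  rw [h1, Matrix.det_one_sub_mul_comm, Matrix.det_unique]
  simp only [Matrix.sub_apply, Matrix.one_apply_eq, Matrix.mul_apply, replicateRow_apply,
    replicateCol_apply, Pi.smul_apply, smul_eq_mul]
  have h2 : ∑ i, u i * (2 / (u ⬝ᵥ u) * u i) = 2 := by
    have h3 : ∀ i, u i * (2 / (u ⬝ᵥ u) * u i) = 2 / (u ⬝ᵥ u) * (u i * u i) := fun i => by ring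
    simp only [h3, ← Finset.mul_sum]
    show 2 / (u ⬝ᵥ u) * (u ⬝ᵥ u) = 2
    field_simp
  rw [h2]
  norm_num

/-- A reflection (or the identity) moving a unit vector to another. -/
theorem move (a b : ι → ℝ) (ha : a ⬝ᵥ a = 1) (hb : b ⬝ᵥ b = 1) :
    ∃ k : Matrix ι ι ℝ, kᵀ * k = 1 ∧ k *ᵥ a = b ∧
      ∀ c : ι → ℝ, a ⬝ᵥ c = 0 → b ⬝ᵥ c = 0 → k *ᵥ c = c := by
  by_cases h : a = b
  · exact ⟨1, by simp, by rw [Matrix.one_mulVec, h], fun c _ _ => Matrix.one_mulVec c⟩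
  · have hu : a - b ≠ 0 := sub_ne_zero.mpr h
    have hp := (dot_pos hu).ne'
    have e1 : (a - b) ⬝ᵥ (a - b) = 2 * ((a - b) ⬝ᵥ a) := by
      simp only [sub_dotProduct, dotProduct_sub, ha, hb]
      rw [dotProduct_comm b a]
      ring
    refine ⟨Hh (a - b), Hh_orth hu, ?_, fun c h1 h2 => ?_⟩
    · rw [Hh_mulVec, ← e1, div_self hp, one_smul]
      abel
    · rw [Hh_mulVec, sub_dotProduct, h1, h2]
      simp

theorem orth_dot {k : Matrix ι ι ℝ} (hk : kᵀ * k = 1) (a b : ι → ℝ) :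
    (k *ᵥ a) ⬝ᵥ (k *ᵥ b) = a ⬝ᵥ b := by
  rw [Matrix.dotProduct_mulVec, Matrix.vecMul_mulVec, hk, Matrix.vecMul_one]

/-- Two orthonormal pairs in dimension at least three are related by an orthogonal matrix of
determinant minus one. -/
theorem exists_orth (hι : 3 ≤ Fintype.card ι) (L N : Matrix ι (Fin 2) ℝ) (hL : Lᵀ * L = 1)
    (hN : Nᵀ * N = 1) : ∃ k : Matrix ι ι ℝ, kᵀ * k = 1 ∧ k * L = N ∧ k.det = -1 := by
  have gL : ∀ i j, Lᵀ i ⬝ᵥ Lᵀ j = (1 : Matrix (Fin 2) (Fin 2) ℝ) i j := by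
    intro i j
    rw [← hL]
    rfl
  have gN : ∀ i j, Nᵀ i ⬝ᵥ Nᵀ j = (1 : Matrix (Fin 2) (Fin 2) ℝ) i j := by
    intro i j
    rw [← hN]
    rfl
  obtain ⟨k₁, h1, h2, -⟩ := move (Lᵀ 0) (Nᵀ 0) (by rw [gL]; simp) (by rw [gN]; simp)
  have e1 : (k₁ *ᵥ Lᵀ 1) ⬝ᵥ (k₁ *ᵥ Lᵀ 1) = 1 := by rw [orth_dot h1, gL]; simp
  have e2 : (k₁ *ᵥ Lᵀ 1) ⬝ᵥ Nᵀ 0 = 0 := by rw [← h2, orth_dot h1, gL]; simp
  obtain ⟨k₂, h3, h4, h5⟩ := move (k₁ *ᵥ Lᵀ 1) (Nᵀ 1) e1 (by rw [gN]; simp)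
  have e3 : k₂ *ᵥ Nᵀ 0 = Nᵀ 0 := h5 _ e2 (by rw [gN]; simp)
  obtain ⟨k₀, hk₀⟩ : ∃ k₀, k₀ = k₂ * k₁ := ⟨_, rfl⟩
  have o1 : k₀ᵀ * k₀ = 1 := by
    rw [hk₀, Matrix.transpose_mul]
    calc k₁ᵀ * k₂ᵀ * (k₂ * k₁) = k₁ᵀ * (k₂ᵀ * k₂) * k₁ := by simp only [Matrix.mul_assoc]
      _ = 1 := by rw [h3, Matrix.mul_one, h1]
  have o2 : k₀ * L = N := by
    have : ∀ j, k₀ *ᵥ Lᵀ j = Nᵀ j := by
      intro j
      rw [hk₀, ← Matrix.mulVec_mulVec]
      fin_cases j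
      · show k₂ *ᵥ k₁ *ᵥ Lᵀ 0 = Nᵀ 0
        rw [h2, e3]
      · show k₂ *ᵥ k₁ *ᵥ Lᵀ 1 = Nᵀ 1
        exact h4
    ext i j
    exact congrFun (this j) i
  have o3 : k₀.det = 1 ∨ k₀.det = -1 := by
    have h6 := congrArg Matrix.det o1
    rw [Matrix.det_mul, Matrix.det_transpose, Matrix.det_one] at h6
    exact mul_self_eq_one_iff.mp h6
  rcases o3 with o3 | o3
  · have hker : (Matrix.mulVecLin Nᵀ).ker ≠ ⊥ := by
      apply LinearMap.ker_ne_bot_of_finrank_lt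
      simp only [Module.finrank_fintype_fun_eq_card, Fintype.card_fin]
      omega
    obtain ⟨z, hz, hz0⟩ := Submodule.exists_mem_ne_zero_of_ne_bot hker
    have hz' : Nᵀ *ᵥ z = 0 := by
      have := LinearMap.mem_ker.mp hz
      rwa [Matrix.mulVecLin_apply] at this
    have hzj : ∀ j, z ⬝ᵥ Nᵀ j = 0 := fun j => by
      rw [dotProduct_comm]
      exact congrFun hz' j
    refine ⟨Hh z * k₀, ?_, ?_, ?_⟩
    · rw [Matrix.transpose_mul]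
      calc k₀ᵀ * (Hh z)ᵀ * (Hh z * k₀) = k₀ᵀ * ((Hh z)ᵀ * Hh z) * k₀ := by
            simp only [Matrix.mul_assoc]
        _ = 1 := by rw [Hh_orth hz0, Matrix.mul_one, o1]
    · rw [Matrix.mul_assoc, o2]
      have : ∀ j, Hh z *ᵥ Nᵀ j = Nᵀ j := by
        intro j
        rw [Hh_mulVec, hzj]
        simp
      ext i j
      exact congrFun (this j) i
    · rw [Matrix.det_mul, Hh_det hz0, o3, mul_one]
  · exact ⟨k₀, o1, o2, o3⟩

end A2Unb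

end Pool.Agent.MPd01a95
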