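import Mathlib
import Pool.Agent.Lib.MP_d01a95_gt.Minor
import Pool.Agent.Lib.MP_d01a95_gt.PropA
import Pool.Agent.Lib.MP_d01a95_gt_A.FormQ
import Pool.Agent.Lib.MP_d01a95_gt_A.Orth

/-!
# Zariski density and properness imply that the ratio of the two largest singular values is
unbounded
-/

set_option autoImplicit false

open Matrix Filter Topology

namespace Pool.Agent.MPd01a95

namespace A2Unb

variable {ι G : Type} [Fintype ι] [DecidableEq ι] [Group G]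

/-- A function of the matrix given by a polynomial in the entries. -/
def IsPoly (f : Matrix (ι ⊕ Fin 2) (ι ⊕ Fin 2) ℝ → ℝ) : Prop :=
  ∃ p : MvPolynomial ((ι ⊕ Fin 2) × (ι ⊕ Fin 2)) ℝ,
    ∀ h : Matrix (ι ⊕ Fin 2) (ι ⊕ Fin 2) ℝ, MvPolynomial.eval (fun ij => h ij.1 ij.2) p = f h

omit [Fintype ι] [DecidableEq ι] in
theorem IsPoly.entry (i j : ι ⊕ Fin 2) :
    IsPoly (fun h : Matrix (ι ⊕ Fin 2) (ι ⊕ Fin 2) ℝ => h i j) :=
  ⟨MvPolynomial.X (i, j), fun h => by simp⟩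

omit [Fintype ι] [DecidableEq ι] in
theorem IsPoly.const (c : ℝ) :
    IsPoly (fun _ : Matrix (ι ⊕ Fin 2) (ι ⊕ Fin 2) ℝ => c) :=
  ⟨MvPolynomial.C c, fun h => by simp⟩

omit [Fintype ι] [DecidableEq ι] in
theorem IsPoly.add {f g : Matrix (ι ⊕ Fin 2) (ι ⊕ Fin 2) ℝ → ℝ} (hf : IsPoly f)
    (hg : IsPoly g) : IsPoly (fun h => f h + g h) := by
  obtain ⟨p, hp⟩ := hf
  obtain ⟨q, hq⟩ := hg
  exact ⟨p + q, fun h => by rw [map_add, hp, hq]⟩

omit [Fintype ι] [DecidableEq ι] in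
theorem IsPoly.sub {f g : Matrix (ι ⊕ Fin 2) (ι ⊕ Fin 2) ℝ → ℝ} (hf : IsPoly f)
    (hg : IsPoly g) : IsPoly (fun h => f h - g h) := by
  obtain ⟨p, hp⟩ := hf
  obtain ⟨q, hq⟩ := hg
  exact ⟨p - q, fun h => by rw [map_sub, hp, hq]⟩

omit [Fintype ι] [DecidableEq ι] in
theorem IsPoly.mul {f g : Matrix (ι ⊕ Fin 2) (ι ⊕ Fin 2) ℝ → ℝ} (hf : IsPoly f)
    (hg : IsPoly g) : IsPoly (fun h => f h * g h) := by
  obtain ⟨p, hp⟩ := hf
  obtain ⟨q, hq⟩ := hg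
  exact ⟨p * q, fun h => by rw [map_mul, hp, hq]⟩

omit [Fintype ι] [DecidableEq ι] in
theorem IsPoly.sum {κ : Type} (s : Finset κ) {f : κ → Matrix (ι ⊕ Fin 2) (ι ⊕ Fin 2) ℝ → ℝ}
    (hf : ∀ i, IsPoly (f i)) : IsPoly (fun h => ∑ i ∈ s, f i h) := by
  choose p hp using hf
  exact ⟨∑ i ∈ s, p i, fun h => by rw [map_sum]; exact Finset.sum_congr rfl fun i _ => hp i h⟩

omit [Fintype ι] [DecidableEq ι] in
theorem continuous_rr : Continuous (rr : Matrix (ι ⊕ Fin 2) (ι ⊕ Fin 2) ℝ → ℝ) := by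
  unfold rr
  have c : ∀ i j : ι ⊕ Fin 2, Continuous (fun S : Matrix (ι ⊕ Fin 2) (ι ⊕ Fin 2) ℝ => S i j) :=
    fun i j => continuous_id.matrix_elem i j
  exact ((((c _ _).pow 2).add ((c _ _).pow 2)).sqrt).max ((((c _ _).pow 2).add ((c _ _).pow 2)).sqrt)

omit [Fintype ι] [DecidableEq ι] in
theorem continuous_Del : Continuous (Del : Matrix (ι ⊕ Fin 2) (ι ⊕ Fin 2) ℝ → ℝ) := by
  unfold Del
  have h : Continuous (fun S : Matrix (ι ⊕ Fin 2) (ι ⊕ Fin 2) ℝ => S.toBlocks₂₂) := by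
    refine continuous_matrix fun i j => ?_
    exact continuous_id.matrix_elem (Sum.inr i) (Sum.inr j)
  exact h.matrix_det.abs

omit [Fintype ι] [DecidableEq ι] in
theorem rr_smul {c : ℝ} (hc : 0 ≤ c) (h : Matrix (ι ⊕ Fin 2) (ι ⊕ Fin 2) ℝ) :
    rr (c • h) = c * rr h := by
  unfold rr
  simp only [Matrix.smul_apply, smul_eq_mul]
  have e : ∀ x y : ℝ, Real.sqrt ((c * x) ^ 2 + (c * y) ^ 2) = c * Real.sqrt (x ^ 2 + y ^ 2) := by
    intro x y
    have : (c * x) ^ 2 + (c * y) ^ 2 = c ^ 2 * (x ^ 2 + y ^ 2) := by ring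
    rw [this, Real.sqrt_mul (sq_nonneg c), Real.sqrt_sq hc]
  rw [e, e, mul_max_of_nonneg _ _ hc]

omit [Fintype ι] [DecidableEq ι] in
theorem Del_smul (c : ℝ) (h : Matrix (ι ⊕ Fin 2) (ι ⊕ Fin 2) ℝ) :
    Del (c • h) = c ^ 2 * Del h := by
  unfold Del
  have : (c • h).toBlocks₂₂ = c • h.toBlocks₂₂ := rfl
  rw [this, Matrix.det_smul, Fintype.card_fin, abs_mul, abs_of_nonneg (sq_nonneg c)]

/-- A limit of the normalised matrices. -/
theorem exists_lim [Infinite G] (ρ : G →* Matrix (ι ⊕ Fin 2) (ι ⊕ Fin 2) ℝ)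
    (hρ : ∀ g, (ρ g)ᵀ * J ι * ρ g = J ι) (hp : PropAdS ρ) :
    ∃ (x : ℕ → G) (A : Matrix (ι ⊕ Fin 2) (ι ⊕ Fin 2) ℝ),
      Tendsto (fun n => rr (ρ (x n))) atTop atTop ∧
      Tendsto (fun n => (rr (ρ (x n)))⁻¹ • ρ (x n)) atTop (𝓝 A) := by
  have h1 : ∀ n : ℕ, ∃ g : G, (n : ℝ) < rr (ρ g) := by
    intro n
    by_contra hcon
    push Not at hcon
    have h2 : {g : G | Del (ρ g) ≤ n * rr (ρ g)} = Set.univ := by
      ext g
      simp only [Set.mem_univ, iff_true]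
      show Del (ρ g) ≤ n * rr (ρ g)
      have h3 := Del_le_sq (ρ g)
      have h4 := (rr_le_Del (ρ g) (hρ g)).2.1
      nlinarith [hcon g]
    have h5 := finite_small ρ hρ hp n
    rw [h2] at h5
    exact Set.infinite_univ h5
  choose y hy using h1
  obtain ⟨B, hB⟩ : ∃ B : Set (Matrix (ι ⊕ Fin 2) (ι ⊕ Fin 2) ℝ),
      B = {S | ∀ i j, S i j ∈ Set.Icc (-3 : ℝ) 3} := ⟨_, rfl⟩
  have hBc : IsCompact B := by
    have h1 : B = Set.pi Set.univ (fun _ : ι ⊕ Fin 2 => Set.pi Set.univ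
        (fun _ : ι ⊕ Fin 2 => Set.Icc (-3 : ℝ) 3)) := by
      rw [hB]
      ext S
      constructor
      · intro h i _ j _
        exact h i j
      · intro h i j
        exact h i (Set.mem_univ _) j (Set.mem_univ _)
    rw [h1]
    exact isCompact_univ_pi fun _ => isCompact_univ_pi fun _ => isCompact_Icc
  have hmem : ∀ n, (rr (ρ (y n)))⁻¹ • ρ (y n) ∈ B := by
    intro n
    rw [hB]
    intro i j
    have h3 := entry_le (ρ (y n)) (hρ _) i j
    have h4 := (rr_le_Del (ρ (y n)) (hρ _)).2.1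
    have h5 : 0 < rr (ρ (y n)) := by linarith
    rw [Set.mem_Icc, ← abs_le, Matrix.smul_apply, smul_eq_mul, abs_mul, abs_inv,
      abs_of_pos h5, inv_mul_le_iff₀ h5]
    linarith
  have : FirstCountableTopology (Matrix (ι ⊕ Fin 2) (ι ⊕ Fin 2) ℝ) :=
    inferInstanceAs (FirstCountableTopology ((ι ⊕ Fin 2) → (ι ⊕ Fin 2) → ℝ))
  obtain ⟨A, -, φ, hφ, hlim⟩ := hBc.tendsto_subseq hmem
  refine ⟨fun n => y (φ n), A, ?_, hlim⟩
  have h6 : Tendsto (fun n : ℕ => ((φ n : ℕ) : ℝ)) atTop atTop :=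
    tendsto_natCast_atTop_atTop.comp hφ.tendsto_atTop
  exact tendsto_atTop_mono (fun n => (hy (φ n)).le) h6

/-- If `ρ` is Zariski dense and proper, the ratio of the two largest singular values is
unbounded. -/
theorem a2_unbounded [Infinite G] (hι : 3 ≤ Fintype.card ι)
    (ρ : G →* Matrix (ι ⊕ Fin 2) (ι ⊕ Fin 2) ℝ)
    (hρ : ∀ g, (ρ g)ᵀ * J ι * ρ g = J ι) (hp : PropAdS ρ) (hZ : ZDense ρ) (C : ℝ) :
    ∃ g, C * Del (ρ g) < rr (ρ g) ^ 2 := by
  by_contra hcon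
  push Not at hcon
  obtain ⟨x, A, hx, hA⟩ := exists_lim ρ hρ hp
  obtain ⟨S₀, hS₀⟩ : ∃ S₀ : Set (Matrix (ι ⊕ Fin 2) (ι ⊕ Fin 2) ℝ),
    S₀ = {B | ∃ c : ℝ, 0 ≤ c ∧ ∃ g : G, B = c • ρ g} := ⟨_, rfl⟩
  have hρS : ∀ g, ρ g ∈ closure S₀ := fun g => subset_closure (by
    rw [hS₀]
    exact ⟨1, zero_le_one, g, (one_smul _ _).symm⟩)
  have hpos : ∀ n, 0 < rr (ρ (x n)) := fun n => by
    have := (rr_le_Del (ρ (x n)) (hρ _)).2.1
    linarith
  have hAS : A ∈ closure S₀ := by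
    refine mem_closure_of_tendsto hA (Eventually.of_forall fun n => ?_)
    rw [hS₀]
    exact ⟨_, (inv_pos.mpr (hpos n)).le, x n, rfl⟩
  have hmulS : ∀ B ∈ closure S₀, ∀ B' ∈ closure S₀, B * B' ∈ closure S₀ := by
    intro B hB B' hB'
    refine map_mem_closure₂ continuous_mul hB hB' ?_
    rw [hS₀]
    rintro _ ⟨c, hc, g, rfl⟩ _ ⟨c', hc', g', rfl⟩
    refine ⟨c * c', mul_nonneg hc hc', g * g', ?_⟩
    rw [map_mul, Matrix.smul_mul, Matrix.mul_smul, smul_smul]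
  have hbd : ∀ B ∈ closure S₀, rr B ^ 2 ≤ C * Del B := by
    have hcl : IsClosed {B : Matrix (ι ⊕ Fin 2) (ι ⊕ Fin 2) ℝ | rr B ^ 2 ≤ C * Del B} :=
      isClosed_le (continuous_rr.pow 2) (continuous_const.mul continuous_Del)
    refine closure_minimal ?_ hcl
    rw [hS₀]
    rintro _ ⟨c, hc, g, rfl⟩
    show rr (c • ρ g) ^ 2 ≤ C * Del (c • ρ g)
    rw [rr_smul hc, Del_smul]
    have := hcon g
    nlinarith [mul_le_mul_of_nonneg_left this (sq_nonneg c)]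
  -- the limit is isotropic
  have hinv : Tendsto (fun n => (rr (ρ (x n)))⁻¹) atTop (𝓝 0) := tendsto_inv_atTop_zero.comp hx
  have hA1 : Aᵀ * J ι * A = 0 := by
    have h1 : Tendsto (fun n => ((rr (ρ (x n)))⁻¹ • ρ (x n))ᵀ * J ι *
        ((rr (ρ (x n)))⁻¹ • ρ (x n))) atTop (𝓝 (Aᵀ * J ι * A)) := by
      refine Tendsto.mul (Tendsto.mul ?_ tendsto_const_nhds) hA
      exact (continuous_id.matrix_transpose.tendsto A).comp hA
    have h2 : ∀ n, ((rr (ρ (x n)))⁻¹ • ρ (x n))ᵀ * J ι * ((rr (ρ (x n)))⁻¹ • ρ (x n)) =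
        ((rr (ρ (x n)))⁻¹ * (rr (ρ (x n)))⁻¹) • J ι := by
      intro n
      rw [Matrix.transpose_smul, Matrix.smul_mul, Matrix.smul_mul, Matrix.mul_smul, hρ, smul_smul]
    simp only [h2] at h1
    have h3 : Tendsto (fun n => ((rr (ρ (x n)))⁻¹ * (rr (ρ (x n)))⁻¹) • J ι) atTop
        (𝓝 ((0 * 0 : ℝ) • J ι)) := (hinv.mul hinv).smul_const _
    rw [mul_zero, zero_smul] at h3
    exact tendsto_nhds_unique h1 h3
  have hA2 : A * J ι * Aᵀ = 0 := by
    have h1 : Tendsto (fun n => ((rr (ρ (x n)))⁻¹ • ρ (x n)) * J ι *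
        ((rr (ρ (x n)))⁻¹ • ρ (x n))ᵀ) atTop (𝓝 (A * J ι * Aᵀ)) := by
      refine Tendsto.mul (Tendsto.mul hA tendsto_const_nhds) ?_
      exact (continuous_id.matrix_transpose.tendsto A).comp hA
    have h2 : ∀ n, ((rr (ρ (x n)))⁻¹ • ρ (x n)) * J ι * ((rr (ρ (x n)))⁻¹ • ρ (x n))ᵀ =
        ((rr (ρ (x n)))⁻¹ * (rr (ρ (x n)))⁻¹) • J ι := by
      intro n
      rw [Matrix.transpose_smul, Matrix.smul_mul, Matrix.smul_mul, Matrix.mul_smul,
        MinorAux.dual (hρ _), smul_smul]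
    simp only [h2] at h1
    have h3 : Tendsto (fun n => ((rr (ρ (x n)))⁻¹ * (rr (ρ (x n)))⁻¹) • J ι) atTop
        (𝓝 ((0 * 0 : ℝ) • J ι)) := (hinv.mul hinv).smul_const _
    rw [mul_zero, zero_smul] at h3
    exact tendsto_nhds_unique h1 h3
  -- the P block of the limit
  obtain ⟨D, hD⟩ : ∃ D : Matrix (Fin 2) (Fin 2) ℝ, D = A.toBlocks₂₂ := ⟨_, rfl⟩
  have hDdet : D.det ≠ 0 := by
    have h1 : rr A = 1 := by
      have h2 := (continuous_rr.tendsto A).comp hA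
      have h3 : (rr ∘ fun n => (rr (ρ (x n)))⁻¹ • ρ (x n)) = fun _ => (1 : ℝ) := by
        funext n
        show rr ((rr (ρ (x n)))⁻¹ • ρ (x n)) = 1
        rw [rr_smul (inv_pos.mpr (hpos n)).le, inv_mul_cancel₀ (hpos n).ne']
      rw [h3] at h2
      exact (tendsto_nhds_unique h2 tendsto_const_nhds)
    have h4 := hbd A hAS
    rw [h1] at h4
    intro h5
    have h6 : Del A = 0 := by
      unfold Del
      rw [← hD, h5, abs_zero]
    rw [h6] at h4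
    norm_num at h4
  have hDu : IsUnit D.det := isUnit_iff_ne_zero.mpr hDdet
  obtain ⟨α, hα⟩ : ∃ α : Matrix (Fin 2) (ι ⊕ Fin 2) ℝ, α = A.submatrix Sum.inr id := ⟨_, rfl⟩
  obtain ⟨β₀, hβ₀⟩ : ∃ β₀ : Matrix (ι ⊕ Fin 2) (Fin 2) ℝ, β₀ = A.submatrix id Sum.inr := ⟨_, rfl⟩
  obtain ⟨β, hβ⟩ : ∃ β : Matrix (ι ⊕ Fin 2) (Fin 2) ℝ, β = β₀ * D⁻¹ := ⟨_, rfl⟩
  have hβD : β * D = β₀ := by
    rw [hβ, Matrix.mul_assoc, Matrix.nonsing_inv_mul _ hDu, Matrix.mul_one]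
  -- factorisation
  have hfac : A = β * α := by
    obtain ⟨W, hW⟩ : ∃ W : Matrix (ι ⊕ Fin 2) (ι ⊕ Fin 2) ℝ,
        A - β * α = A * W := by
      refine ⟨1 - (1 : Matrix (ι ⊕ Fin 2) (ι ⊕ Fin 2) ℝ).submatrix id Sum.inr * (D⁻¹ * α), ?_⟩
      rw [Matrix.mul_sub, Matrix.mul_one]
      congr 1
      rw [← Matrix.mul_assoc, hβ, Matrix.mul_assoc, hβ₀]
      congr 1
      ext i j
      simp [Matrix.mul_apply, Matrix.one_apply]
    have h1 : (A - β * α)ᵀ * J ι * (A - β * α) = 0 := by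
      rw [hW, Matrix.transpose_mul]
      calc Wᵀ * Aᵀ * J ι * (A * W) = Wᵀ * (Aᵀ * J ι * A) * W := by simp only [Matrix.mul_assoc]
        _ = 0 := by rw [hA1]; simp
    have hP : ∀ p j, (A - β * α) (Sum.inr p) j = 0 := by
      intro p j
      have h2 : (β * α) (Sum.inr p) j = (D * D⁻¹ * α) p j := by
        rw [hβ, hβ₀, hD]
        simp only [Matrix.mul_apply, Matrix.submatrix_apply, id, Matrix.toBlocks₂₂, Matrix.of_apply]
      rw [Matrix.sub_apply, h2, Matrix.mul_nonsing_inv _ hDu, Matrix.one_mul, hα]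
      simp
    have h3 : A - β * α = 0 := by
      ext i j
      rcases i with i | p
      · have h4 := congrFun (congrFun h1 j) j
        have h5 : ((A - β * α)ᵀ * J ι * (A - β * α)) j j =
            ∑ i, (A - β * α) (Sum.inl i) j ^ 2 := by
          rw [Matrix.mul_apply, Fintype.sum_sum_type]
          simp only [hP, mul_zero, Finset.sum_const_zero, add_zero]
          refine Finset.sum_congr rfl fun i _ => ?_
          have h6 : ((A - β * α)ᵀ * J ι) j (Sum.inl i) = (A - β * α) (Sum.inl i) j := by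
            rw [Matrix.mul_apply, Fintype.sum_sum_type]
            simp [J, Matrix.one_apply, hP]
          rw [h6]
          ring
        rw [h5] at h4
        have h7 := (Finset.sum_eq_zero_iff_of_nonneg (fun i _ => sq_nonneg _)).mp
          (show ∑ i, (A - β * α) (Sum.inl i) j ^ 2 = 0 from h4) i (Finset.mem_univ i)
        exact pow_eq_zero_iff (two_ne_zero) |>.mp h7
      · exact hP p j
    exact (sub_eq_zero.mp h3)
  -- the semigroup of compressions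
  obtain ⟨T, hT⟩ : ∃ T : Set (Matrix (Fin 2) (Fin 2) ℝ),
    T = {X | ∃ B ∈ closure S₀, X = α * B * β} := ⟨_, rfl⟩
  have hTmul : ∀ X ∈ T, ∀ Y ∈ T, X * Y ∈ T := by
    rw [hT]
    rintro _ ⟨B, hB, rfl⟩ _ ⟨B', hB', rfl⟩
    refine ⟨B * A * B', hmulS _ (hmulS _ hB _ hAS) _ hB', ?_⟩
    rw [hfac]
    simp only [Matrix.mul_assoc]
  obtain ⟨K, hK⟩ : ∃ K : ℝ, K = ∑ k, ∑ j, D⁻¹ k j ^ 2 := ⟨_, rfl⟩
  have hTbd : ∀ X ∈ T, ∀ i j, X i j ^ 2 ≤ (|C| * |D.det| * K) * |X.det| := by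
    rw [hT]
    rintro _ ⟨B, hB, rfl⟩ i j
    obtain ⟨X, hX⟩ : ∃ X, X = α * B * β := ⟨_, rfl⟩
    rw [← hX]
    have h1 : (A * B * A).toBlocks₂₂ = X * D := by
      rw [hX, Matrix.mul_assoc (α * B), hβD]
      ext p q
      rw [hα, hβ₀]
      simp only [Matrix.toBlocks₂₂, Matrix.of_apply, Matrix.mul_apply, Matrix.submatrix_apply, id]
    have h2 := hbd _ (hmulS _ (hmulS _ hAS _ hB) _ hAS)
    have h3 : Del (A * B * A) = |X.det| * |D.det| := by
      unfold Del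
      rw [h1, Matrix.det_mul, abs_mul]
    have h4 : ∀ p, (X * D) p 0 ^ 2 + (X * D) p 1 ^ 2 ≤ rr (A * B * A) ^ 2 := by
      intro p
      have h5 := MinorAux.le_rr_sq (A * B * A)
      have h6 : ∀ p q, (A * B * A) (Sum.inr p) (Sum.inr q) = (X * D) p q := by
        intro p q
        rw [← h1]
        rfl
      rw [h6, h6, h6, h6] at h5
      fin_cases p
      · exact h5.1
      · exact h5.2
    have h7 : X i j = (X * D) i 0 * D⁻¹ 0 j + (X * D) i 1 * D⁻¹ 1 j := by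
      have h8 : X = X * D * D⁻¹ := by
        rw [Matrix.mul_assoc, Matrix.mul_nonsing_inv _ hDu, Matrix.mul_one]
      conv_lhs => rw [h8]
      rw [Matrix.mul_apply, Fin.sum_univ_two]
    have h9 : D⁻¹ 0 j ^ 2 + D⁻¹ 1 j ^ 2 ≤ K := by
      rw [hK, Finset.sum_comm]
      have := Finset.single_le_sum (f := fun j => ∑ k, D⁻¹ k j ^ 2)
        (fun j _ => Finset.sum_nonneg fun k _ => sq_nonneg _) (Finset.mem_univ j)
      simpa [Fin.sum_univ_two] using this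
    have hK0 : 0 ≤ K := by
      rw [hK]
      positivity
    have h10 : X i j ^ 2 ≤ ((X * D) i 0 ^ 2 + (X * D) i 1 ^ 2) *
        (D⁻¹ 0 j ^ 2 + D⁻¹ 1 j ^ 2) := by
      rw [h7]
      nlinarith [sq_nonneg ((X * D) i 0 * D⁻¹ 1 j - (X * D) i 1 * D⁻¹ 0 j)]
    calc X i j ^ 2 ≤ ((X * D) i 0 ^ 2 + (X * D) i 1 ^ 2) *
        (D⁻¹ 0 j ^ 2 + D⁻¹ 1 j ^ 2) := h10
      _ ≤ rr (A * B * A) ^ 2 * K := mul_le_mul (h4 i) h9 (by positivity) (sq_nonneg _)
      _ ≤ (|C| * (|X.det| * |D.det|)) * K := by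
          refine mul_le_mul_of_nonneg_right ?_ hK0
          rw [h3] at h2
          refine h2.trans ?_
          exact mul_le_mul_of_nonneg_right (le_abs_self C) (by positivity)
      _ = _ := by ring
  obtain ⟨Q, hQs, hQ0, hQd, hQ⟩ := exists_form T hTmul _ hTbd
  -- the polynomial identity
  have hpoly : ∀ i j, ∀ h : Matrix (ι ⊕ Fin 2) (ι ⊕ Fin 2) ℝ, hᵀ * J ι * h = J ι → h.det = 1 →
      ((α * h * β)ᵀ * Q * (α * h * β)) i j * Q 0 0 -
        ((α * h * β)ᵀ * Q * (α * h * β)) 0 0 * Q i j = 0 := by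
    intro i j
    have hent : ∀ a b, IsPoly (fun h : Matrix (ι ⊕ Fin 2) (ι ⊕ Fin 2) ℝ => (α * h * β) a b) := by
      intro a b
      have h1 : (fun h : Matrix (ι ⊕ Fin 2) (ι ⊕ Fin 2) ℝ => (α * h * β) a b) =
          fun h => ∑ l, (∑ k, α a k * h k l) * β l b := by
        funext h
        simp only [Matrix.mul_apply]
      rw [h1]
      exact IsPoly.sum _ fun l => (IsPoly.sum _ fun k =>
        (IsPoly.const _).mul (IsPoly.entry _ _)).mul (IsPoly.const _)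
    have hent2 : ∀ a b, IsPoly (fun h : Matrix (ι ⊕ Fin 2) (ι ⊕ Fin 2) ℝ =>
        ((α * h * β)ᵀ * Q * (α * h * β)) a b) := by
      intro a b
      have h1 : (fun h : Matrix (ι ⊕ Fin 2) (ι ⊕ Fin 2) ℝ =>
          ((α * h * β)ᵀ * Q * (α * h * β)) a b) =
          fun h => ∑ l, (∑ k, (α * h * β) k a * Q k l) * (α * h * β) l b := by
        funext h
        rw [Matrix.mul_apply]
        refine Finset.sum_congr rfl fun l _ => ?_
        rw [Matrix.mul_apply]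
        rfl
      rw [h1]
      exact IsPoly.sum _ fun l => (IsPoly.sum _ fun k =>
        (hent k a).mul (IsPoly.const _)).mul (hent l b)
    obtain ⟨p, hpp⟩ := ((hent2 i j).mul (IsPoly.const (Q 0 0))).sub
      ((hent2 0 0).mul (IsPoly.const (Q i j)))
    beta_reduce at hpp
    have h1 := hZ p (fun g => by
      rw [hpp]
      have h2 := hQ (α * ρ g * β) (by rw [hT]; exact ⟨ρ g, hρS g, rfl⟩)
      rw [h2]
      simp only [Matrix.smul_apply, smul_eq_mul]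
      ring)
    intro h h3 h4
    have h5 := h1 h h3 h4
    rwa [hpp] at h5
  -- orthonormal pairs
  obtain ⟨AE, hAE⟩ : ∃ AE : Matrix ι (Fin 2) ℝ, AE = A.toBlocks₁₂ := ⟨_, rfl⟩
  obtain ⟨AP, hAP⟩ : ∃ AP : Matrix (Fin 2) ι ℝ, AP = A.toBlocks₂₁ := ⟨_, rfl⟩
  have hblk : A = fromBlocks A.toBlocks₁₁ AE AP D := by
    rw [hAE, hAP, hD, Matrix.fromBlocks_toBlocks]
  have hE1 : AEᵀ * AE = Dᵀ * D := by
    have h1 := congrArg Matrix.toBlocks₂₂ hA1
    rw [hblk] at h1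
    unfold J at h1
    rw [Matrix.fromBlocks_transpose, Matrix.fromBlocks_multiply, Matrix.fromBlocks_multiply] at h1
    simp only [Matrix.toBlocks_fromBlocks₂₂, Matrix.mul_one, Matrix.mul_zero, add_zero, zero_add,
      Matrix.mul_neg, Matrix.neg_mul] at h1
    have h2 : (0 : Matrix (ι ⊕ Fin 2) (ι ⊕ Fin 2) ℝ).toBlocks₂₂ = 0 := rfl
    rw [h2] at h1
    exact eq_of_sub_eq_zero (by rw [sub_eq_add_neg]; exact h1)
  have hE2 : AP * APᵀ = D * Dᵀ := by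
    have h1 := congrArg Matrix.toBlocks₂₂ hA2
    rw [hblk] at h1
    unfold J at h1
    rw [Matrix.fromBlocks_transpose, Matrix.fromBlocks_multiply, Matrix.fromBlocks_multiply] at h1
    simp only [Matrix.toBlocks_fromBlocks₂₂, Matrix.mul_one, Matrix.mul_zero, add_zero, zero_add,
      Matrix.mul_neg, Matrix.neg_mul] at h1
    have h2 : (0 : Matrix (ι ⊕ Fin 2) (ι ⊕ Fin 2) ℝ).toBlocks₂₂ = 0 := rfl
    rw [h2] at h1
    exact eq_of_sub_eq_zero (by rw [sub_eq_add_neg]; exact h1)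
  have hL : (AE * D⁻¹)ᵀ * (AE * D⁻¹) = 1 := by
    rw [Matrix.transpose_mul]
    calc (D⁻¹)ᵀ * AEᵀ * (AE * D⁻¹) = (D⁻¹)ᵀ * (AEᵀ * AE) * D⁻¹ := by simp only [Matrix.mul_assoc]
      _ = (D * D⁻¹)ᵀ * (D * D⁻¹) := by rw [hE1, Matrix.transpose_mul]; simp only [Matrix.mul_assoc]
      _ = 1 := by rw [Matrix.mul_nonsing_inv _ hDu]; simp
  have hN : ((D⁻¹ * AP)ᵀ)ᵀ * (D⁻¹ * AP)ᵀ = 1 := by
    rw [Matrix.transpose_transpose, Matrix.transpose_mul]
    calc D⁻¹ * AP * (APᵀ * (D⁻¹)ᵀ) = D⁻¹ * (AP * APᵀ) * (D⁻¹)ᵀ := by simp only [Matrix.mul_assoc]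
      _ = (D⁻¹ * D) * (D⁻¹ * D)ᵀ := by rw [hE2, Matrix.transpose_mul]; simp only [Matrix.mul_assoc]
      _ = 1 := by rw [Matrix.nonsing_inv_mul _ hDu]; simp
  obtain ⟨k, hk1, hk2, hk3⟩ := exists_orth hι _ _ hL hN
  obtain ⟨ε, hε⟩ : ∃ ε : Matrix (Fin 2) (Fin 2) ℝ, ε = !![1, 0; 0, -1] := ⟨_, rfl⟩
  have hh1 : (fromBlocks k 0 0 ε)ᵀ * J ι * fromBlocks k 0 0 ε = J ι := by
    unfold J
    rw [Matrix.fromBlocks_transpose, Matrix.fromBlocks_multiply, Matrix.fromBlocks_multiply]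
    have h1 : εᵀ * (-1) * ε = -1 := by
      rw [hε]
      ext i j
      fin_cases i <;> fin_cases j <;> simp [Matrix.mul_apply, Fin.sum_univ_two]
    simp only [Matrix.mul_one, Matrix.mul_zero, Matrix.zero_mul, add_zero, zero_add,
      Matrix.transpose_zero, hk1, h1]
  have hh2 : (fromBlocks k 0 0 ε).det = 1 := by
    rw [Matrix.det_fromBlocks_zero₂₁, hk3, hε, Matrix.det_fin_two]
    simp
  have hM : α * fromBlocks k 0 0 ε * β = D * (1 + ε) := by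
    have e2 : ∀ p q, (α * fromBlocks k 0 0 ε * β) p q =
        (AP * k * (AE * D⁻¹) + D * ε * (D * D⁻¹)) p q := by
      intro p q
      rw [Matrix.mul_apply, Fintype.sum_sum_type, Matrix.add_apply, Matrix.mul_apply,
        Matrix.mul_apply (M := D * ε)]
      have f1 : ∀ l, (α * fromBlocks k 0 0 ε) p (Sum.inl l) = (AP * k) p l := by
        intro l
        rw [Matrix.mul_apply, Fintype.sum_sum_type, Matrix.mul_apply]
        simp only [Matrix.fromBlocks_apply₁₁, Matrix.fromBlocks_apply₂₁, Matrix.zero_apply,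
          mul_zero, Finset.sum_const_zero, add_zero]
        refine Finset.sum_congr rfl fun a _ => ?_
        rw [hα, hAP]
        rfl
      have f2 : ∀ l, (α * fromBlocks k 0 0 ε) p (Sum.inr l) = (D * ε) p l := by
        intro l
        rw [Matrix.mul_apply, Fintype.sum_sum_type, Matrix.mul_apply]
        simp only [Matrix.fromBlocks_apply₁₂, Matrix.fromBlocks_apply₂₂, Matrix.zero_apply,
          mul_zero, Finset.sum_const_zero, zero_add]
        refine Finset.sum_congr rfl fun a _ => ?_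
        rw [hα, hD]
        rfl
      have f3 : ∀ l, β (Sum.inl l) q = (AE * D⁻¹) l q := by
        intro l
        rw [hβ, hβ₀, hAE, Matrix.mul_apply, Matrix.mul_apply]
        rfl
      have f4 : ∀ l, β (Sum.inr l) q = (D * D⁻¹) l q := by
        intro l
        rw [hβ, hβ₀, Matrix.mul_apply, Matrix.mul_apply, hD]
        rfl
      simp only [f1, f2, f3, f4]
    have e3 : α * fromBlocks k 0 0 ε * β = AP * k * (AE * D⁻¹) + D * ε * (D * D⁻¹) := by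
      ext p q
      exact e2 p q
    rw [e3, Matrix.mul_nonsing_inv _ hDu, Matrix.mul_one, Matrix.mul_add, Matrix.mul_one]
    congr 1
    rw [Matrix.mul_assoc, hk2, Matrix.transpose_mul]
    calc AP * (APᵀ * (D⁻¹)ᵀ) = (AP * APᵀ) * (D⁻¹)ᵀ := by simp only [Matrix.mul_assoc]
      _ = D * (D⁻¹ * D)ᵀ := by rw [hE2, Matrix.transpose_mul]; simp only [Matrix.mul_assoc]
      _ = D := by rw [Matrix.nonsing_inv_mul _ hDu]; simp
  -- contradiction
  obtain ⟨M, hMdef⟩ : ∃ M, M = D * (1 + ε) := ⟨_, rfl⟩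
  have hMpoly : ∀ i j, (Mᵀ * Q * M) i j * Q 0 0 - (Mᵀ * Q * M) 0 0 * Q i j = 0 := by
    intro i j
    have := hpoly i j _ hh1 hh2
    rwa [hM, ← hMdef] at this
  have hM1 : ∀ a, M a 1 = 0 := by
    intro a
    rw [hMdef, hε, Matrix.mul_apply, Fin.sum_univ_two]
    simp
  have h11 : (Mᵀ * Q * M) 1 1 = 0 := by
    rw [Matrix.mul_apply]
    refine Finset.sum_eq_zero fun a _ => ?_
    rw [hM1, mul_zero]
  have hQ11 : 0 < Q 1 1 := by
    rw [Matrix.det_fin_two, ← hQs] at hQd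
    nlinarith [sq_nonneg (Q 0 1)]
  have h00 : (Mᵀ * Q * M) 0 0 = 0 := by
    have := hMpoly 1 1
    rw [h11, zero_mul, zero_sub, neg_eq_zero] at this
    rcases mul_eq_zero.mp this with h | h
    · exact h
    · exact absurd h hQ11.ne'
  have h00' : (Mᵀ * Q * M) 0 0 =
      Q 0 0 * M 0 0 ^ 2 + 2 * Q 0 1 * (M 0 0 * M 1 0) + Q 1 1 * M 1 0 ^ 2 := by
    simp only [Matrix.mul_apply, Fin.sum_univ_two, Matrix.transpose_apply]
    rw [← hQs]
    ring
  have hMz : M 0 0 = 0 ∧ M 1 0 = 0 := by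
    rw [h00'] at h00
    rw [Matrix.det_fin_two, ← hQs] at hQd
    have e : Q 0 0 * (Q 0 0 * M 0 0 ^ 2 + 2 * Q 0 1 * (M 0 0 * M 1 0) + Q 1 1 * M 1 0 ^ 2) =
        (Q 0 0 * M 0 0 + Q 0 1 * M 1 0) ^ 2 + (Q 0 0 * Q 1 1 - Q 0 1 * Q 0 1) * M 1 0 ^ 2 := by
      ring
    rw [h00, mul_zero] at e
    have e1 : (Q 0 0 * Q 1 1 - Q 0 1 * Q 0 1) * M 1 0 ^ 2 = 0 := by
      nlinarith [sq_nonneg (Q 0 0 * M 0 0 + Q 0 1 * M 1 0), mul_nonneg hQd.le (sq_nonneg (M 1 0))]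
    have e2 : M 1 0 = 0 := by
      rcases mul_eq_zero.mp e1 with h | h
      · exact absurd h hQd.ne'
      · exact pow_eq_zero_iff (two_ne_zero) |>.mp h
    rw [e2] at e
    have e3 : (Q 0 0 * M 0 0) ^ 2 = 0 := by nlinarith
    have e4 := pow_eq_zero_iff (two_ne_zero) |>.mp e3
    rcases mul_eq_zero.mp e4 with h | h
    · exact absurd h hQ0.ne'
    · exact ⟨h, e2⟩
  have hD0 : ∀ a, M a 0 = 2 * D a 0 := by
    intro a
    rw [hMdef, hε, Matrix.mul_apply, Fin.sum_univ_two]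
    simp
    ring
  rw [hD0, hD0] at hMz
  apply hDdet
  rw [Matrix.det_fin_two]
  have e1 : D 0 0 = 0 := by linarith [hMz.1]
  have e2 : D 1 0 = 0 := by linarith [hMz.2]
  rw [e1, e2]
  ring

end A2Unb

end Pool.Agent.MPd01a95
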